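import Pool.Agent.H15.SCG2.GCom

/-!
Project SCG2, module CGR: existence of the generators and their relations.
-/

namespace Pool.Agent.H15.SCG2

open Matrix Pool.SCG

theorem cgr_thm : Pool.SCG.CGRStmt := by
  intro F _ τ w h2 h3 hP
  obtain ⟨a, ha⟩ := gis_exists (F := F) true
    !![1, -(τ + 1), -(τ + 1); -(τ + 1), 1, -(τ + 1); -(τ + 1), -(τ + 1), 1] (by
    have e : (!![1, -(τ + 1), -(τ + 1); -(τ + 1), 1, -(τ + 1); -(τ + 1), -(τ + 1), 1] : M3 F).det
        = -((τ + 2) ^ 2 * (2 * τ + 1)) := by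
      rw [Matrix.det_fin_three]
      simp
      ring
    rw [e]
    exact neg_ne_zero.2 (mul_ne_zero (pow_ne_zero 2 hP.t2) hP.t3))
  obtain ⟨b, hb⟩ := gis_exists (F := F) true !![0, 1, 0; 1, 0, 0; 0, 0, τ] (by
    simp [Matrix.det_fin_three, hP.t0])
  obtain ⟨c, hc⟩ := gis_exists (F := F) false !![1, 0, 0; 0, 0, 1; 0, 1, 0] (by
    simp [Matrix.det_fin_three])
  obtain ⟨d, hd⟩ := gis_exists (F := F) false !![0, 1, 0; 1, 0, 0; 0, 0, 1] (by
    simp [Matrix.det_fin_three])
  refine ⟨a, b, c, d, ⟨ha, hb, hc, hd⟩, ha.mem_diagExt, hb.mem_diagExt, hc.mem_diagExt,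
    hd.mem_diagExt, gis_outer_ne_one ha, gis_outer_ne_one hb, ?_, ?_, ?_, ?_, ?_, ?_, ?_, ?_, ?_,
    ?_, ?_, ?_⟩
  · refine gis_inner_ne_one hc ?_
    intro k h
    have := congrFun (congrFun h 1) 2
    simp at this
  · refine gis_inner_ne_one hd ?_
    intro k h
    have := congrFun (congrFun h 0) 1
    simp at this
  · refine gis_outer_sq ha ?_
    ext i j
    fin_cases i <;> fin_cases j <;> simp
  · refine gis_outer_sq hb ?_
    ext i j
    fin_cases i <;> fin_cases j <;> simp
  · refine gis_inner_sq 1 hc ?_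
    ext i j
    fin_cases i <;> fin_cases j <;> simp [Matrix.mul_apply, Fin.sum_univ_three]
  · refine gis_inner_sq 1 hd ?_
    ext i j
    fin_cases i <;> fin_cases j <;> simp [Matrix.mul_apply, Fin.sum_univ_three]
  · refine gis_comm_outer_inner 1 ha hc ?_
    ext i j
    fin_cases i <;> fin_cases j <;> simp [Matrix.mul_apply, Fin.sum_univ_three]
  · refine gis_comm_outer_inner 1 ha hd ?_
    ext i j
    fin_cases i <;> fin_cases j <;> simp [Matrix.mul_apply, Fin.sum_univ_three]
  · refine gis_comm_outer_inner 1 hb hd ?_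
    ext i j
    fin_cases i <;> fin_cases j <;> simp [Matrix.mul_apply, Fin.sum_univ_three]
  · refine gis_ne_of_mat ha hb ?_
    intro k hk h
    have e1 := congrFun (congrFun h 0) 0
    simp at e1
    exact hk e1.symm
  · exact gis_ne_of_sign hb hc
  · refine gis_ne_of_mat hc hd ?_
    intro k hk h
    have := congrFun (congrFun h 0) 1
    simp at this

end Pool.Agent.H15.SCG2
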