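import Pool.Agent.H24.SCG2.Stmts1
import Pool.Agent.H17.SCG.C3Q

/-!
Project SCG2: common facts on the isomorphism of `PGL(2,F)` with the orthogonal group of `Q0`.
-/

namespace Pool.Agent.H15.SCG2

open Matrix Pool.SCG Pool.Agent.H17.SCG

variable {F : Type} [Field F]

/-- the formula for `Φ` -/
def PhiF (Φ : GL (Fin 2) F →* SL3 F) : Prop :=
  ∀ (g : GL (Fin 2) F) (a b c d : F), (g : Matrix (Fin 2) (Fin 2) F) = !![a, b; c, d] →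
    (Φ g : Matrix (Fin 3) (Fin 3) F) = (a * d - b * c)⁻¹ •
      !![a ^ 2, a * b, b ^ 2 * 2⁻¹; 2 * a * c, a * d + b * c, b * d;
        2 * c ^ 2, 2 * c * d, d ^ 2]

theorem gl_det_ne (g : GL (Fin 2) F) : (g : M2 F).det ≠ 0 :=
  (Matrix.GeneralLinearGroup.det g).ne_zero

theorem gl_det_ne' (g : GL (Fin 2) F) :
    (g : M2 F) 0 0 * (g : M2 F) 1 1 - (g : M2 F) 0 1 * (g : M2 F) 1 0 ≠ 0 := by
  have h := gl_det_ne g
  rwa [Matrix.det_fin_two] at h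

theorem phi_smul {Φ : GL (Fin 2) F →* SL3 F} (hΦ : PhiF Φ) (g h : GL (Fin 2) F) (k : F)
    (hgh : (g : M2 F) = k • (h : M2 F)) : Φ g = Φ h := by
  have hh := gl_det_ne' h
  have hg := gl_det_ne' g
  have hk : k ≠ 0 := by
    rintro rfl
    apply hg
    rw [hgh]; simp
  apply Subtype.ext
  rw [hΦ h _ _ _ _ (Matrix.eta_fin_two _),
    hΦ g (k * (h : M2 F) 0 0) (k * (h : M2 F) 0 1) (k * (h : M2 F) 1 0) (k * (h : M2 F) 1 1) (by
      rw [hgh]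
      ext i j
      fin_cases i <;> fin_cases j <;> simp)]
  have e : k * (h : M2 F) 0 0 * (k * (h : M2 F) 1 1) - k * (h : M2 F) 0 1 * (k * (h : M2 F) 1 0)
      = k ^ 2 * ((h : M2 F) 0 0 * (h : M2 F) 1 1 - (h : M2 F) 0 1 * (h : M2 F) 1 0) := by ring
  rw [e, mul_inv, mul_comm (k ^ 2)⁻¹, mul_smul]
  congr 1
  ext i j
  fin_cases i <;> fin_cases j <;> simp <;> field_simp

theorem phi_scalar {Φ : GL (Fin 2) F →* SL3 F} (hΦ : PhiF Φ) (g : GL (Fin 2) F) (k : F)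
    (hg : (g : M2 F) = !![k, 0; 0, k]) : Φ g = 1 := by
  rw [phi_smul hΦ g 1 k, map_one]
  rw [hg]
  ext i j
  fin_cases i <;> fin_cases j <;> simp

/-- `Φ g0` -/
theorem phi_g0 (h2 : (2 : F) ≠ 0) {Φ : GL (Fin 2) F →* SL3 F} (hΦ : PhiF Φ) (g0 : GL (Fin 2) F)
    (ρ x : F) (hg0 : (g0 : M2 F) = !![-x, 2; ρ, x]) : Is (inn (Φ g0)) false (hQ ρ x) := by
  refine inn_is _ ?_
  rw [hΦ g0 _ _ _ _ hg0]
  have e1 : -x * x - 2 * ρ = -(2 * ρ + x ^ 2) := by ring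
  rw [e1, inv_neg]
  unfold hQ
  rw [neg_smul, ← smul_neg]
  congr 1
  ext i j
  have h24 : (2 : F)⁻¹ * 4 = 2 := by
    have : (4 : F) = 2 * 2 := by norm_num
    rw [this, ← mul_assoc, inv_mul_cancel₀ h2, one_mul]
  fin_cases i <;> fin_cases j <;> simp <;> first | ring1 | linear_combination h24

theorem h3_is {a e : Cor F} {ρ : F} (hρ : ρ ≠ 0) (ha : Is a true (Q0 F))
    (he : Is e true (dg ρ 1 ρ⁻¹)) : Is (e * a) false (h3m ρ) := by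
  have e1 : dg ρ 1 ρ⁻¹ * dg ρ⁻¹ 1 ρ = 1 := by
    rw [dg_mul, mul_inv_cancel₀ hρ, inv_mul_cancel₀ hρ, mul_one, dg_one]
  have := he.mul_outer' ha e1
  rw [dg_transpose, dg_mul_Q0] at this
  simpa [h3m] using this

theorem de_is {d e : Cor F} {ρ σ : F} (hσ : σ ≠ 0)
    (hd : Is d true (dg σ 1 σ⁻¹)) (he : Is e true (dg ρ 1 ρ⁻¹)) :
    Is (d * e) false (dg (ρ / σ) 1 (σ / ρ)) := by
  have e1 : dg σ 1 σ⁻¹ * dg σ⁻¹ 1 σ = 1 := by
    rw [dg_mul, mul_inv_cancel₀ hσ, inv_mul_cancel₀ hσ, mul_one, dg_one]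
  have := hd.mul_outer' he e1
  rw [dg_transpose, dg_mul] at this
  have e2 : σ⁻¹ * ρ = ρ / σ := by field_simp
  have e3 : σ * ρ⁻¹ = σ / ρ := by field_simp
  rw [e2, e3, mul_one] at this
  simpa using this

theorem phi_x1 (h2 : (2 : F) ≠ 0) {Φ : GL (Fin 2) F →* SL3 F} (hΦ : PhiF Φ) (x1 : GL (Fin 2) F)
    {a e : Cor F} (k ρ : F) (hk : k ≠ 0) (hρ : ρ ≠ 0)
    (hx1 : (x1 : M2 F) = !![0, k * (-2); k * ρ, 0])
    (ha : Is a true (Q0 F)) (he : Is e true (dg ρ 1 ρ⁻¹)) : inn (Φ x1) = e * a := by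
  have hΦx1 : Is (inn (Φ x1)) false (h3m ρ) := by
    refine inn_is _ ?_
    rw [hΦ x1 _ _ _ _ hx1]
    ext i j
    fin_cases i <;> fin_cases j <;> simp [h3m] <;> field_simp
  exact hΦx1.ext (h3_is hρ ha he)

theorem phi_t {Φ : GL (Fin 2) F →* SL3 F} (hΦ : PhiF Φ) (t : GL (Fin 2) F)
    {d e : Cor F} (ρ σ : F) (hρ : ρ ≠ 0) (hσ : σ ≠ 0)
    (ht : (t : M2 F) = !![ρ / σ, 0; 0, 1])
    (hd : Is d true (dg σ 1 σ⁻¹)) (he : Is e true (dg ρ 1 ρ⁻¹)) : inn (Φ t) = d * e := by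
  have hΦt : Is (inn (Φ t)) false (dg (ρ / σ) 1 (σ / ρ)) := by
    refine inn_is _ ?_
    rw [hΦ t _ _ _ _ ht]
    ext i j
    fin_cases i <;> fin_cases j <;> simp [dg] <;> field_simp
  exact hΦt.ext (de_is hσ hd he)

theorem phi_c {a c : Cor F} (h2 : (2 : F) ≠ 0) {Φ : GL (Fin 2) F →* SL3 F} (hΦ : PhiF Φ)
    (hcomm : ∀ g, a * inn (Φ g) = inn (Φ g) * a) (g0 : GL (Fin 2) F)
    (ρ x : F) (hg0 : (g0 : M2 F) = !![-x, 2; ρ, x]) (ha : Is a true (Q0 F))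
    (hc : Is c false (hQ ρ x) ∨ Is c true ((hQ ρ x).transpose * Q0 F)) :
    (c.s = false ∧ c = inn (Φ g0)) ∨ (c.s = true ∧ c = inn (Φ g0) * a) := by
  have hΦg0 := phi_g0 h2 hΦ g0 ρ x hg0
  rcases hc with hc | hc
  · exact Or.inl ⟨hc.1, hc.ext hΦg0⟩
  · right
    refine ⟨hc.1, ?_⟩
    rw [← hcomm g0]
    have h1 : Is (a * inn (Φ g0)) true (Q0 F * hQ ρ x) := ha.mul_inner hΦg0
    rw [← hQ_Q0] at h1
    exact hc.ext h1

/-- the square of an element of `XG` is in `C` -/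
theorem xg_sq {Φ : GL (Fin 2) F →* SL3 F} {a : Cor F} (ha2 : a * a = 1)
    (hcomm : ∀ g, a * inn (Φ g) = inn (Φ g) * a) {C : Subgroup (Cor F)} {g : GL (Fin 2) F}
    (hg : g ∈ XG Φ a ha2 hcomm C) : inn (Φ (g * g)) ∈ C := by
  rw [map_mul, inn_mul]
  rcases hg with hg | hg
  · exact C.mul_mem hg hg
  · have := C.mul_mem hg hg
    rwa [mul_assoc, ← mul_assoc a, hcomm, mul_assoc, ha2, mul_one] at this

theorem q0_sq {a : Cor F} (ha : Is a true (Q0 F)) : a * a = 1 := by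
  rw [outer_sq_iff ha]
  ext i j
  fin_cases i <;> fin_cases j <;> simp [Q0]

end Pool.Agent.H15.SCG2
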