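import Pool.Agent.H15.SCG2.Common

/-!
Project SCG2, module DBIG: the unipotent elements over the prime field.
-/

namespace Pool.Agent.H15.SCG2

open Matrix Pool.SCG Pool.Agent.H17.SCG

theorem gl_eq {F : Type} [Field F] {g h : GL (Fin 2) F} (hgh : (g : M2 F) = (h : M2 F)) :
    g = h := Units.ext hgh

theorem dbig_thm (hBIG : BIGStmt) (hHUA : HUAStmt) (hSQO : SQOStmt) (hPHI : PHIStmt)
    (hPAR : PARStmt) : DBIGStmt := by
  intro F _ _ hF C a c d e σ x hσ hx hx0 ha hd he hc hcC hdC heC hg n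
  obtain ⟨p, hp, hchar, hp6, h2, h3, h5, h11, -⟩ := hPAR F hF
  haveI : Fact p.Prime := ⟨hp⟩
  obtain ⟨Φ, hΦ1, hΦ2⟩ := hPHI F h2
  have hΦ : PhiF Φ := hΦ1
  have ha2 : a * a = 1 := q0_sq ha
  have hcomm : ∀ g, a * inn (Φ g) = inn (Φ g) * a := fun g => hΦ2 g a ha
  have hσ0 : σ ≠ 0 := by rintro rfl; simp at hσ
  have he' : Is e true (dg (1 : F) 1 (1 : F)⁻¹) := by rwa [inv_one]
  -- matrices
  obtain ⟨g0, hg0⟩ := exists_gl (F := F) (-x) 2 1 x (by
    intro h
    apply hx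
    linear_combination -h)
  obtain ⟨x1, hx1⟩ := exists_gl (F := F) 0 (-2) 1 0 (by
    intro h
    apply h2
    linear_combination h)
  obtain ⟨t, ht⟩ := exists_gl (F := F) (1 / σ) 0 0 1 (by
    rw [mul_one, mul_zero, sub_zero]
    exact div_ne_zero one_ne_zero hσ0)
  obtain ⟨h, hh⟩ := exists_gl (F := F) (-(1 / σ)) 0 0 1 (by
    rw [mul_one, mul_zero, sub_zero]
    exact neg_ne_zero.2 (div_ne_zero one_ne_zero hσ0))
  have hcg := phi_c h2 hΦ hcomm g0 1 x hg0 ha hc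
  have hx1e : inn (Φ x1) = e * a := by
    refine phi_x1 h2 hΦ x1 1 1 one_ne_zero one_ne_zero ?_ ha he'
    rw [hx1]; simp
  have hte : inn (Φ t) = d * e := phi_t hΦ t 1 σ one_ne_zero hσ0 ht hd he'
  have htC : inn (Φ t) ∈ C := by rw [hte]; exact C.mul_mem hdC heC
  have hg0X : g0 ∈ XG Φ a ha2 hcomm C := by
    rcases hcg with ⟨_, h⟩ | ⟨_, h⟩
    · left
      rw [← h]
      exact hcC
    · right
      rw [← h]
      exact hcC
  have hx1X : x1 ∈ XG Φ a ha2 hcomm C := by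
    right
    rw [hx1e, mul_assoc, ha2, mul_one]
    exact heC
  have hhX : h ∈ XG Φ a ha2 hcomm C := by
    obtain ⟨g, hg, hgC⟩ := hg
    have hh' : Φ h = Φ t * g := by
      apply Subtype.ext
      rw [Matrix.SpecialLinearGroup.coe_mul, hg, hΦ h _ _ _ _ hh, hΦ t _ _ _ _ ht]
      ext i j
      fin_cases i <;> fin_cases j <;> simp [dg, Matrix.mul_apply, Fin.sum_univ_three]
    rcases hgC with hgC | hgC
    · left
      rw [hh', inn_mul]
      exact C.mul_mem htC hgC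
    · right
      rw [hh', inn_mul, mul_assoc]
      exact C.mul_mem htC hgC
  have hl : (1 / σ) ^ 2 + 1 / σ + 1 = 0 := by
    field_simp
    linear_combination hσ
  obtain ⟨U, hU, hU1, hU2, hU3⟩ := hBIG p F hp6 (XG Φ a ha2 hcomm C) h x1 g0 (1 / σ) (-2)
    hhX hx1X hg0X hl hh hx1 (by rw [hg0]; simpa using hx0) (by rw [hg0]; simp)
  have h20 : (-2 : F) ≠ 0 := neg_ne_zero.2 h2
  obtain ⟨F0, u0, hu0, hF0, hF1⟩ := hHUA F h2 U (-2) h20 hU (by
    intro u hu hu0
    have := hU2 x1 hx1X u hu (by rw [hx1]; simpa using hu0)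
    rw [hx1] at this
    simpa using this)
  have hint : ∀ m : ℤ, (m : F) ∈ F0 := fun m => intCast_mem F0 m
  have h2F0 : (2 : F) ∈ F0 := by exact_mod_cast hint 2
  have hu0F : u0 ∈ F0 := by
    apply hSQO F h2 hF.2 F0 u0
    have := F0.mul_mem hF1 (F0.neg_mem h2F0)
    rwa [div_mul_cancel₀ _ h20] at this
  have hmemU : ∀ y ∈ F0, y ∈ U := by
    intro y hy
    rw [hF0]
    exact F0.div_mem hy hu0F
  -- the upper unipotent elements
  have hUc : ∀ m : F, m ∈ F0 → ∀ v : GL (Fin 2) F, (v : M2 F) = !![1, m; 0, 1] →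
      inn (Φ v) ∈ C := by
    intro m hm v hv
    obtain ⟨g, hgX, k, hk, hg⟩ := hU1 (m / 2) (hmemU _ (F0.div_mem hm h2F0))
    have hsq := xg_sq ha2 hcomm hgX
    have e : Φ (g * g) = Φ v := by
      refine phi_smul hΦ _ _ (k ^ 2) ?_
      rw [Units.val_mul, hg, hv]
      ext i j
      fin_cases i <;> fin_cases j <;> simp [Matrix.mul_apply, Fin.sum_univ_two] <;>
        field_simp <;> ring
    rwa [e] at hsq
  constructor
  · obtain ⟨v, hv⟩ := exists_gl (F := F) 1 (n : F) 0 1 (by simp)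
    refine ⟨inn (Φ v), hUc _ (hint n) v hv, rfl, ?_⟩
    show (Φ v : M3 F) = _
    rw [hΦ v _ _ _ _ hv]
    ext i j
    fin_cases i <;> fin_cases j <;> simp [Uc]
  · obtain ⟨v, hv⟩ := exists_gl (F := F) 1 ((-2 : F) * n) 0 1 (by simp)
    obtain ⟨w, hw⟩ := exists_gl (F := F) 1 0 (n : F) 1 (by simp)
    have hvC := hUc _ (F0.mul_mem (F0.neg_mem h2F0) (hint n)) v hv
    have hconj : w * x1 = x1 * v := by
      apply gl_eq
      rw [Units.val_mul, Units.val_mul, hw, hx1, hv]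
      ext i j
      fin_cases i <;> fin_cases j <;> simp [Matrix.mul_apply, Fin.sum_univ_two]
      ring
    have hwC : inn (Φ w) ∈ C := by
      have h1 : inn (Φ w) * (e * a) = e * a * inn (Φ v) := by
        rw [← hx1e, ← inn_mul, ← inn_mul, ← map_mul, ← map_mul, hconj]
      have h4 : inn (Φ w) = e * inn (Φ v) * e⁻¹ := by
        rw [eq_mul_inv_iff_mul_eq]
        have h5 : inn (Φ w) * e * a = e * inn (Φ v) * a := by
          rw [mul_assoc (inn (Φ w)), h1, mul_assoc, hcomm, mul_assoc]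
        exact mul_right_cancel h5
      rw [h4]
      exact C.mul_mem (C.mul_mem heC hvC) (C.inv_mem heC)
    refine ⟨inn (Φ w), hwC, rfl, ?_⟩
    show (Φ w : M3 F) = _
    rw [hΦ w _ _ _ _ hw]
    ext i j
    fin_cases i <;> fin_cases j <;> simp [Lc]

end Pool.Agent.H15.SCG2
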