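import Pool.Agent.H24.SCG2.Stmts4

/-!
Project SCG2, module FEX: the parameter in characteristic three.
-/

namespace Pool.Agent.H15.SCG2

open Matrix Pool.SCG

theorem fex_thm : Pool.SCG.FEXStmt := by
  intro F _ _ hF hne
  obtain ⟨h3, hsq⟩ := hF
  classical
  have : Fintype F := Fintype.ofFinite F
  have hch : CharP F 3 := (CharP.charP_iff_prime_eq_zero Nat.prime_three).2 (by exact_mod_cast h3)
  obtain ⟨n, hp, hcard⟩ := FiniteField.card F 3
  rw [Nat.card_eq_fintype_card] at hsq hne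
  obtain ⟨k, hk⟩ : ∃ k, (n : ℕ) = 2 * k + 1 := by
    rcases Nat.even_or_odd' (n : ℕ) with ⟨k, hk | hk⟩
    · exfalso
      apply hsq
      rw [hcard, hk]
      exact ⟨3 ^ k, by rw [two_mul, pow_add]⟩
    · exact ⟨k, hk⟩
  have h4 : Fintype.card F % 4 = 3 := by
    rw [hcard, hk, pow_succ, pow_mul, Nat.mul_mod, Nat.pow_mod]
    norm_num
  have hk0 : k ≠ 0 := by
    rintro rfl
    apply hne
    rw [hcard, hk]
    norm_num
  have hbig : 27 ≤ Fintype.card F := by
    rw [hcard, hk]
    have h1 : 3 ≤ 2 * k + 1 := by omega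
    calc 27 = 3 ^ 3 := by norm_num
      _ ≤ 3 ^ (2 * k + 1) := Nat.pow_le_pow_right (by norm_num) h1
  have hns : ¬ IsSquare (-1 : F) := by
    rw [FiniteField.isSquare_neg_one_iff]
    intro h
    exact h h4
  obtain ⟨g, hg⟩ := IsCyclic.exists_monoid_generator (α := Fˣ)
  have hord : orderOf g = Fintype.card F - 1 := by
    have h1 : orderOf g = Nat.card Fˣ := by
      apply orderOf_eq_card_of_forall_mem_zpowers
      intro x
      obtain ⟨k, hk⟩ := hg x
      exact ⟨(k : ℤ), by simpa using hk⟩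
    rw [h1, Nat.card_eq_fintype_card, Fintype.card_units]
  obtain ⟨m, hm⟩ : ∃ m, Fintype.card F - 1 = 2 * m ∧ m % 2 = 1 ∧ 13 ≤ m := by
    refine ⟨(Fintype.card F - 1) / 2, ?_, ?_, ?_⟩ <;> omega
  obtain ⟨hm1, hm2, hm3⟩ := hm
  have hs1 : ((g : F)) ^ 2 ≠ 1 := by
    intro h
    have h5 : g ^ 2 = 1 := Units.ext (by rw [Units.val_pow_eq_pow_val, h, Units.val_one])
    have h6 := orderOf_le_of_pow_eq_one (by norm_num) h5
    omega
  have hgm : ((g : F)) ^ m = -1 := by
    have h5 : ((g : F) ^ m) * ((g : F) ^ m) = 1 := by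
      rw [← pow_add, ← two_mul, ← hm1, ← hord, ← Units.val_pow_eq_pow_val, pow_orderOf_eq_one,
        Units.val_one]
    rcases mul_self_eq_one_iff.1 h5 with h6 | h6
    · exfalso
      have h7 : g ^ m = 1 := Units.ext (by rw [Units.val_pow_eq_pow_val, h6, Units.val_one])
      have h8 := orderOf_le_of_pow_eq_one (by omega) h7
      omega
    · exact h6
  have hneg : -((g : F) ^ 2) = ((g ^ (m + 2) : Fˣ) : F) := by
    rw [Units.val_pow_eq_pow_val, pow_add, hgm]
    ring
  have hcop : Nat.Coprime (m + 2) (orderOf g) := by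
    rw [hord, hm1]
    apply Nat.Coprime.mul_right
    · rw [Nat.coprime_two_right]
      exact Nat.odd_iff.2 (by omega)
    · have h5 : Nat.Coprime 2 m := by
        rw [Nat.coprime_two_left]
        exact Nat.odd_iff.2 hm2
      have : Nat.Coprime (2 + m) m := by
        rw [Nat.coprime_add_self_left]
        exact h5
      rwa [add_comm] at this
  refine ⟨(g : F), ⟨Units.ne_zero g, hs1, ?_, ?_, ?_, ?_⟩⟩
  · intro h
    exact hns ⟨(g : F), by rw [← h, sq]⟩
  · intro h
    exact hns ⟨(g : F) ^ 2, by rw [← h]; ring⟩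
  · intro x hx
    obtain ⟨j, hj⟩ := exists_pow_eq_self_of_coprime hcop
    obtain ⟨i, hi⟩ := hg (Units.mk0 x hx)
    refine ⟨j * i, ?_⟩
    have h5 : (g ^ (m + 2)) ^ (j * i) = Units.mk0 x hx := by
      rw [pow_mul, hj]
      exact hi
    rw [hneg, ← Units.val_pow_eq_pow_val, h5, Units.val_mk0]
  · refine ⟨(g : F), Units.ne_zero g, hs1, ?_⟩
    intro h
    have h1 : (g : F) - 1 ≠ 0 := by
      intro h1
      apply hs1
      rw [sub_eq_zero.1 h1]
      norm_num
    apply hns
    refine ⟨((g : F) + 1) / ((g : F) - 1), ?_⟩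
    field_simp
    linear_combination -h

end Pool.Agent.H15.SCG2
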