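import Pool.Agent.H24.SCG2.Base3

/-!
Project SCG2: relations between automorphisms given by matrices.
-/

namespace Pool.Agent.H15.SCG2

open Matrix Pool.SCG

variable {F : Type} [Field F]

theorem gis_outer_sq {α : MulAut (SL3 F)} {A : M3 F} (h : GIs α true A) (hA : A.transpose = A) :
    α * α = 1 := by
  have hd : IsUnit A.det := isUnit_iff_ne_zero.2 h.det_ne
  have h1 := h.mul_outer h (Matrix.mul_nonsing_inv A hd)
  rw [Matrix.transpose_nonsing_inv, hA, Matrix.nonsing_inv_mul A hd] at h1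
  exact (GIs.eq_one_iff (by simpa using h1)).2 ⟨1, by rw [one_smul]⟩

theorem gis_inner_sq {α : MulAut (SL3 F)} {A : M3 F} (c : F) (h : GIs α false A)
    (hA : A * A = c • (1 : M3 F)) : α * α = 1 := by
  have h1 := h.mul_inner h
  exact (GIs.eq_one_iff h1).2 ⟨c, hA⟩

theorem gis_comm_outer_inner {α β : MulAut (SL3 F)} {A C : M3 F} (k : F) (hα : GIs α true A)
    (hβ : GIs β false C) (h : C.transpose * A * C = k • A) : α * β = β * α := by
  have hd : IsUnit C.det := isUnit_iff_ne_zero.2 hβ.det_ne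
  have h1 := hα.mul_inner hβ
  have h2 : GIs (β * α) true ((C⁻¹).transpose * A) := by
    simpa using hβ.mul_outer hα (Matrix.mul_nonsing_inv C hd)
  have hCt : IsUnit (C.transpose).det := by rwa [Matrix.det_transpose]
  refine (h2.ext h1 k ?_).symm
  have e : (C⁻¹).transpose * (C.transpose * A * C) = A * C := by
    rw [Matrix.transpose_nonsing_inv, ← mul_assoc, ← mul_assoc, Matrix.nonsing_inv_mul _ hCt,
      one_mul]
  rw [← e, h, Matrix.mul_smul]

theorem gis_ne_of_sign {α β : MulAut (SL3 F)} {A B : M3 F} (hα : GIs α true A)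
    (hβ : GIs β false B) : α ≠ β := by
  rintro rfl
  have := (hα.uniq hβ).1
  simp at this

theorem gis_ne_of_mat {α β : MulAut (SL3 F)} {s t : Bool} {A B : M3 F} (hα : GIs α s A)
    (hβ : GIs β t B) (h : ∀ c : F, c ≠ 0 → B ≠ c • A) : α ≠ β := by
  rintro rfl
  obtain ⟨_, c, hc, h1⟩ := hα.uniq hβ
  exact h c hc h1

theorem gis_outer_ne_one {α : MulAut (SL3 F)} {A : M3 F} (hα : GIs α true A) : α ≠ 1 :=
  gis_ne_of_sign hα gis_one

theorem gis_inner_ne_one {α : MulAut (SL3 F)} {A : M3 F} (hα : GIs α false A)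
    (h : ∀ c : F, A ≠ c • (1 : M3 F)) : α ≠ 1 := by
  intro h1
  obtain ⟨c, hc⟩ := (GIs.eq_one_iff hα).1 h1
  exact h c hc

end Pool.Agent.H15.SCG2
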