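import Pool.Agent.H24.SCG2.Stmts1

/-!
Project SCG2, module HUA: Hua's identity, the structure of `U`.
-/

namespace Pool.Agent.H15.SCG2

open Pool.SCG

/-- Hua's identity: closure under `a² b / β` -/
theorem hua_aux {F : Type} [Field F] (U : AddSubgroup F) (β : F) (hβ : β ≠ 0)
    (hs : ∀ u ∈ U, u ≠ 0 → β / u ∈ U) (a b : F) (ha : a ∈ U) (hb : b ∈ U) :
    a ^ 2 * b / β ∈ U := by
  by_cases ha0 : a = 0
  · subst ha0; simp
  by_cases hb0 : b = 0
  · subst hb0; simp
  by_cases hab : β - a * b = 0
  · have h1 : a * b = β := by linear_combination -hab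
    have h2 : a ^ 2 * b / β = a := by
      rw [div_eq_iff hβ]
      linear_combination a * h1
    rw [h2]; exact ha
  · have h1 : β / b - a ∈ U := U.sub_mem (hs b hb hb0) ha
    have e1 : β / b - a = (β - a * b) / b := by field_simp
    have h1n : β / b - a ≠ 0 := by
      rw [e1]; exact div_ne_zero hab hb0
    have h2 : β / (β / b - a) ∈ U := hs _ h1 h1n
    have h3 : β / a + β / (β / b - a) ∈ U := U.add_mem (hs a ha ha0) h2
    have e3 : β / a + β / (β / b - a) = β ^ 2 / (a * (β - a * b)) := by
      rw [e1]; field_simp; ring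
    have h3n : β / a + β / (β / b - a) ≠ 0 := by
      rw [e3]; exact div_ne_zero (pow_ne_zero 2 hβ) (mul_ne_zero ha0 hab)
    have h4 : β / (β / a + β / (β / b - a)) ∈ U := hs _ h3 h3n
    have h5 : a - β / (β / a + β / (β / b - a)) ∈ U := U.sub_mem ha h4
    have e5 : a - β / (β / a + β / (β / b - a)) = a ^ 2 * b / β := by
      rw [e3]; field_simp; ring
    rw [← e5]; exact h5

theorem hua_polar {F : Type} [Field F] (U : AddSubgroup F) (β : F) (hβ : β ≠ 0)
    (hs : ∀ u ∈ U, u ≠ 0 → β / u ∈ U) (a b c : F) (ha : a ∈ U) (hb : b ∈ U) (hc : c ∈ U) :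
    2 * a * b * c / β ∈ U := by
  have h1 := hua_aux U β hβ hs (a + c) b (U.add_mem ha hc) hb
  have h2 := hua_aux U β hβ hs a b ha hb
  have h3 := hua_aux U β hβ hs c b hc hb
  have h4 := U.sub_mem (U.sub_mem h1 h2) h3
  have e : (a + c) ^ 2 * b / β - a ^ 2 * b / β - c ^ 2 * b / β = 2 * a * b * c / β := by
    field_simp; ring
  rw [← e]; exact h4

/-- the subfield of multipliers of `U` -/
def multF {F : Type} [Field F] [Finite F] (U : AddSubgroup F) : Subfield F where
  carrier := {x : F | ∀ u ∈ U, x * u ∈ U}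
  mul_mem' := by
    intro x y hx hy u hu
    rw [mul_assoc]; exact hx _ (hy _ hu)
  one_mem' := by intro u hu; simpa using hu
  add_mem' := by
    intro x y hx hy u hu
    rw [add_mul]; exact U.add_mem (hx _ hu) (hy _ hu)
  zero_mem' := by intro u _; simp
  neg_mem' := by
    intro x hx u hu
    rw [neg_mul]; exact U.neg_mem (hx _ hu)
  inv_mem' := by
    intro x hx u hu
    by_cases h0 : x = 0
    · subst h0; simp
    · -- multiplication by `x` is onto on `U`
      let f : U → U := fun v => ⟨x * v.1, hx v.1 v.2⟩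
      have hf : Function.Injective f := by
        intro v w h
        have h' : x * v.1 = x * w.1 := congrArg Subtype.val h
        exact Subtype.ext (mul_left_cancel₀ h0 h')
      have hf' : Function.Surjective f := Finite.surjective_of_injective hf
      obtain ⟨v, hv⟩ := hf' ⟨u, hu⟩
      have hv' : x * v.1 = u := congrArg Subtype.val hv
      have : x⁻¹ * u = v.1 := by rw [← hv']; field_simp
      rw [this]; exact v.2

theorem mem_multF {F : Type} [Field F] [Finite F] (U : AddSubgroup F) (x : F) :
    x ∈ multF U ↔ ∀ u ∈ U, x * u ∈ U := Iff.rfl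

theorem hua_thm : Pool.SCG.HUAStmt := by
  intro F _ _ h2 U β hβ hU hs
  obtain ⟨u0, hu0, hne⟩ : ∃ u0 ∈ U, u0 ≠ 0 := by
    by_contra hcon
    push Not at hcon
    exact hU ((AddSubgroup.eq_bot_iff_forall U).2 hcon)
  have key : ∀ u ∈ U, 2 * u0 * u / β ∈ multF U := by
    intro u hu v hv
    have := hua_polar U β hβ hs u0 u v hu0 hu hv
    have e : 2 * u0 * u / β * v = 2 * u0 * u * v / β := by ring
    rw [e]; exact this
  have h20 : (2 : F) ∈ multF U := by
    have h := (multF U).add_mem (multF U).one_mem (multF U).one_mem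
    rwa [one_add_one_eq_two] at h
  refine ⟨multF U, u0, hne, ?_, ?_⟩
  · intro x
    constructor
    · intro hx
      have h3 := (multF U).div_mem (key x hx) (key u0 hu0)
      have e : 2 * u0 * x / β / (2 * u0 * u0 / β) = x / u0 := by field_simp
      rw [← e]; exact h3
    · intro hx
      have := hx u0 hu0
      rwa [div_mul_cancel₀ x hne] at this
  · have h3 := (multF U).div_mem (key u0 hu0) h20
    have e : 2 * u0 * u0 / β / 2 = u0 ^ 2 / β := by field_simp
    rw [← e]; exact h3

end Pool.Agent.H15.SCG2
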