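import Pool.Agent.H24.SCG2.Stmts1

/-!
Project SCG2, module PAR: arithmetic of `OddP`.
-/

namespace Pool.Agent.H15.SCG2

open Pool.SCG

theorem pow_odd_mod6 (p k : ℕ) : p ^ (2 * k + 1) % 6 = p % 6 := by
  induction k with
  | zero => simp
  | succ k ih =>
    have e : p ^ (2 * (k + 1) + 1) = p ^ (2 * k + 1) * (p * p) := by ring
    rw [e, Nat.mul_mod, ih, Nat.mul_mod p p 6]
    have h : p % 6 < 6 := Nat.mod_lt _ (by norm_num)
    generalize p % 6 = r at h
    interval_cases r <;> rfl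

theorem par_thm : Pool.SCG.PARStmt := by
  intro F _ _ h
  obtain ⟨h6, hsq⟩ := h
  haveI : Fintype F := Fintype.ofFinite F
  haveI hchar : CharP F (ringChar F) := ringChar.charP F
  obtain ⟨n, hp, hcard⟩ := FiniteField.card F (ringChar F)
  rw [Nat.card_eq_fintype_card] at h6 hsq
  have hodd : ∃ k, (n : ℕ) = 2 * k + 1 := by
    rcases Nat.even_or_odd' (n : ℕ) with ⟨k, hk | hk⟩
    · exfalso
      apply hsq
      rw [hcard, hk]
      exact ⟨ringChar F ^ k, by rw [two_mul, pow_add]⟩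
    · exact ⟨k, hk⟩
  obtain ⟨k, hk⟩ := hodd
  have hp6 : ringChar F % 6 = 1 := by
    rw [← pow_odd_mod6 (ringChar F) k, ← hk, ← hcard]; exact h6
  have hne : ∀ m : ℕ, m.Prime → m % 6 ≠ 1 → (m : F) ≠ 0 := by
    intro m hm hm6 h0
    rw [CharP.cast_eq_zero_iff F (ringChar F)] at h0
    rcases (Nat.dvd_prime hm).1 h0 with h1 | h1
    · exact hp.one_lt.ne' h1
    · rw [h1] at hp6; exact hm6 hp6
  refine ⟨ringChar F, hp, hchar, hp6, ?_, ?_, ?_, ?_, ?_⟩
  · exact_mod_cast hne 2 (by norm_num) (by norm_num)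
  · exact_mod_cast hne 3 (by norm_num) (by norm_num)
  · exact_mod_cast hne 5 (by norm_num) (by norm_num)
  · exact_mod_cast hne 11 (by norm_num) (by norm_num)
  · haveI : Fact (ringChar F).Prime := ⟨hp⟩
    haveI : Fact (Nat.Prime 3) := ⟨by norm_num⟩
    have hc : 3 ∣ Nat.card (ZMod (ringChar F))ˣ := by
      rw [Nat.card_eq_fintype_card, ZMod.card_units]
      omega
    obtain ⟨w, hw⟩ := exists_prime_orderOf_dvd_card' 3 hc
    refine ⟨(w : ZMod (ringChar F)), ?_⟩
    have h3 : w ^ 3 = 1 := by rw [← hw]; exact pow_orderOf_eq_one w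
    have h3' : (w : ZMod (ringChar F)) ^ 3 = 1 := by
      rw [← Units.val_pow_eq_pow_val, h3, Units.val_one]
    have h1 : (w : ZMod (ringChar F)) - 1 ≠ 0 := by
      intro h
      have : w = 1 := Units.ext (by rw [Units.val_one]; exact sub_eq_zero.1 h)
      rw [this, orderOf_one] at hw
      norm_num at hw
    have : ((w : ZMod (ringChar F)) - 1) * ((w : ZMod (ringChar F)) ^ 2 + w + 1) = 0 := by
      linear_combination h3'
    exact (mul_eq_zero.1 this).resolve_left h1

end Pool.Agent.H15.SCG2
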