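import Pool.Agent.H15.SCG2.GCom

/-!
Project SCG2, module Q7R: the relations for `q = 7`.
-/

namespace Pool.Agent.H15.SCG2

open Matrix Pool.SCG

theorem q7r_thm : Pool.SCG.Q7RStmt := by
  intro F _ h7
  have h2 : (2 : F) ≠ 0 := by
    intro h
    have : (1 : F) = 0 := by linear_combination h7 - 3 * h
    exact one_ne_zero this
  have h4 : (4 : F) ≠ 0 := by
    intro h
    have : (1 : F) = 0 := by linear_combination 2 * h - h7
    exact one_ne_zero this
  obtain ⟨a, ha⟩ := gis_exists (F := F) true (dg (-1) 2 2) (by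
    rw [dg_det]
    exact mul_ne_zero (mul_ne_zero (neg_ne_zero.2 one_ne_zero) h2) h2)
  obtain ⟨b, hb⟩ := gis_exists (F := F) true (dg (-1) 2 4) (by
    rw [dg_det]
    exact mul_ne_zero (mul_ne_zero (neg_ne_zero.2 one_ne_zero) h2) h4)
  obtain ⟨c, hc⟩ := gis_exists (F := F) false (blk (-1) !![0, 1; 1, 0]) (by
    simp [blk, Matrix.det_fin_three])
  obtain ⟨d, hd⟩ := gis_exists (F := F) false !![-3, 4, 0; -2, 3, 0; 0, 0, -1] (by
    simp [Matrix.det_fin_three]
    intro h
    have : (1 : F) = 0 := by linear_combination h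
    exact one_ne_zero this)
  refine ⟨a, b, c, d, ⟨ha, hb, hc, hd⟩, ha.mem_diagExt, hb.mem_diagExt, hc.mem_diagExt,
    hd.mem_diagExt, gis_outer_ne_one ha, gis_outer_ne_one hb, ?_, ?_, ?_, ?_, ?_, ?_, ?_, ?_, ?_,
    ?_, ?_, ?_⟩
  · refine gis_inner_ne_one hc ?_
    intro k h
    have := congrFun (congrFun h 1) 2
    simp [blk] at this
  · refine gis_inner_ne_one hd ?_
    intro k h
    have := congrFun (congrFun h 0) 1
    simp at this
    exact h4 this
  · exact gis_outer_sq ha (dg_transpose _ _ _)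
  · exact gis_outer_sq hb (dg_transpose _ _ _)
  · refine gis_inner_sq 1 hc ?_
    ext i j
    fin_cases i <;> fin_cases j <;> simp [blk, Matrix.mul_apply, Fin.sum_univ_three]
  · refine gis_inner_sq 1 hd ?_
    ext i j
    fin_cases i <;> fin_cases j <;> simp [Matrix.mul_apply, Fin.sum_univ_three] <;> ring
  · refine gis_comm_outer_inner 1 ha hc ?_
    ext i j
    fin_cases i <;> fin_cases j <;> simp [blk, dg, Matrix.mul_apply, Fin.sum_univ_three]
  · refine gis_comm_outer_inner 1 ha hd ?_
    ext i j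
    fin_cases i <;> fin_cases j <;> simp [dg, Matrix.mul_apply, Fin.sum_univ_three] <;> ring
  · refine gis_comm_outer_inner 1 hb hd ?_
    ext i j
    fin_cases i <;> fin_cases j <;> simp [dg, Matrix.mul_apply, Fin.sum_univ_three] <;> ring
  · refine gis_ne_of_mat ha hb ?_
    intro k _ h
    have e1 := congrFun (congrFun h 1) 1
    have e2 := congrFun (congrFun h 2) 2
    simp [dg] at e1 e2
    apply h2
    linear_combination e2 - e1
  · exact gis_ne_of_sign hb hc
  · refine gis_ne_of_mat hc hd ?_
    intro k _ h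
    have := congrFun (congrFun h 0) 1
    simp [blk] at this
    exact h4 this

end Pool.Agent.H15.SCG2
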