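import Pool.Agent.H24.SCG2.Stmts4
import Pool.Agent.H15.SCG2.GCom

/-!
Project SCG2, module R3R: the relations for `q = 3`.
-/

namespace Pool.Agent.H15.SCG2

open Matrix Pool.SCG

theorem r3r_thm : Pool.SCG.R3RStmt := by
  intro F _ h3
  obtain ⟨a, ha⟩ := gis_exists (F := F) true !![0, 0, 1; 0, 1, 0; 1, 0, 0] (by
    simp [Matrix.det_fin_three])
  obtain ⟨b, hb⟩ := gis_exists (F := F) false (dg 1 (-1) (-1)) (by
    rw [dg_det]; simp)
  obtain ⟨c, hc⟩ := gis_exists (F := F) false !![-1, 0, 0; -1, 1, 0; -1, -1, -1] (by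
    simp [Matrix.det_fin_three])
  obtain ⟨d, hd⟩ := gis_exists (F := F) true (dg (-1) 1 (-1)) (by
    rw [dg_det]; simp)
  have h2 : (2 : F) ≠ 0 := by
    intro h
    have : (1 : F) = 0 := by linear_combination h3 - h
    exact one_ne_zero this
  refine ⟨a, b, c, d, ⟨ha, hb, hc, hd⟩, gis_outer_ne_one ha, ?_, ?_, gis_outer_ne_one hd,
    ?_, ?_, ?_, ?_, ?_, ?_, ?_, ?_, ?_, ?_⟩
  · refine gis_inner_ne_one hb ?_
    intro k h
    have e1 := congrFun (congrFun h 0) 0
    have e2 := congrFun (congrFun h 1) 1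
    simp [dg] at e1 e2
    apply h2
    linear_combination e1 - e2
  · refine gis_inner_ne_one hc ?_
    intro k h
    have := congrFun (congrFun h 1) 0
    simp at this
  · refine gis_outer_sq ha ?_
    ext i j
    fin_cases i <;> fin_cases j <;> simp
  · refine gis_inner_sq 1 hb ?_
    ext i j
    fin_cases i <;> fin_cases j <;> simp [dg, Matrix.mul_apply, Fin.sum_univ_three]
  · refine gis_inner_sq 1 hc ?_
    ext i j
    fin_cases i <;> fin_cases j <;> simp [Matrix.mul_apply, Fin.sum_univ_three]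
    linear_combination h3
  · exact gis_outer_sq hd (dg_transpose _ _ _)
  · refine gis_comm_outer_inner 1 ha hc ?_
    ext i j
    fin_cases i <;> fin_cases j <;> simp [Matrix.mul_apply, Fin.sum_univ_three]
    linear_combination h3
  · have e1 : (!![0, 0, 1; 0, 1, 0; 1, 0, 0] : M3 F) * !![0, 0, 1; 0, 1, 0; 1, 0, 0] = 1 := by
      ext i j
      fin_cases i <;> fin_cases j <;> simp [Matrix.mul_apply, Fin.sum_univ_three]
    have e2 : dg (-1 : F) 1 (-1) * dg (-1) 1 (-1) = 1 := by
      ext i j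
      fin_cases i <;> fin_cases j <;> simp [dg, Matrix.mul_apply, Fin.sum_univ_three]
    refine (ha.mul_outer hd e1).ext (hd.mul_outer ha e2) 1 ?_
    ext i j
    fin_cases i <;> fin_cases j <;> simp [dg, Matrix.mul_apply, Fin.sum_univ_three]
  · refine (gis_comm_outer_inner 1 hd hb ?_).symm
    ext i j
    fin_cases i <;> fin_cases j <;> simp [dg, Matrix.mul_apply, Fin.sum_univ_three]
  · exact gis_ne_of_sign ha hb
  · refine gis_ne_of_mat hb hc ?_
    intro k hk h
    have e1 := congrFun (congrFun h 1) 0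
    simp [dg] at e1
  · exact (gis_ne_of_sign hd hc).symm

end Pool.Agent.H15.SCG2
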