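import Pool.Agent.H15.SCG2.Common

/-!
Project SCG2, module SIDE: Lemma P for elements of order three applied to `c`, `d`, `e`.
-/

namespace Pool.Agent.H15.SCG2

open Matrix Pool.SCG Pool.Agent.H17.SCG

theorem side_thm (hLP3 : LP3Stmt) (hPHI : PHIStmt) : SIDEStmt := by
  intro F _ _ h2 h3 C a c d e ρ σ x hρ hσ hx hx0 hord ha hd he hc hcC hdC heC haC
  obtain ⟨Φ, hΦ1, hΦ2⟩ := hPHI F h2
  have hΦ : PhiF Φ := hΦ1
  have ha2 : a * a = 1 := q0_sq ha
  have hcomm : ∀ g, a * inn (Φ g) = inn (Φ g) * a := fun g => hΦ2 g a ha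
  -- the number τ
  obtain ⟨τ, hτdef⟩ : ∃ τ : F, τ = ρ / σ := ⟨_, rfl⟩
  have hτ0 : τ ≠ 0 := by rw [hτdef]; exact div_ne_zero hρ hσ
  have hτ3 : τ ^ 3 = 1 := by rw [hτdef, ← hord, pow_orderOf_eq_one]
  have hτ1 : τ - 1 ≠ 0 := by
    intro h
    have h' : ρ / σ = 1 := by rw [← hτdef]; exact sub_eq_zero.1 h
    rw [h', orderOf_one] at hord
    norm_num at hord
  have hτ : τ ^ 2 + τ + 1 = 0 := by
    have : (τ - 1) * (τ ^ 2 + τ + 1) = 0 := by linear_combination hτ3
    exact (mul_eq_zero.1 this).resolve_left hτ1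
  -- the matrices
  obtain ⟨g0, hg0⟩ := exists_gl (F := F) (-x) 2 ρ x (by
    intro h
    apply hx
    linear_combination -h)
  obtain ⟨x1, hx1⟩ := exists_gl (F := F) 0 (-2) ρ 0 (by
    intro h
    have : 2 * ρ = 0 := by linear_combination h
    rcases mul_eq_zero.1 this with h' | h'
    · exact h2 h'
    · exact hρ h')
  obtain ⟨t, ht⟩ := exists_gl (F := F) τ 0 0 1 (by
    rw [mul_one, mul_zero, sub_zero]
    exact hτ0)
  have hcg := phi_c h2 hΦ hcomm g0 ρ x hg0 ha hc
  have hx1e : inn (Φ x1) = e * a := by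
    refine phi_x1 h2 hΦ x1 1 ρ one_ne_zero hρ ?_ ha he
    rw [hx1]; simp
  have hte : inn (Φ t) = d * e := phi_t hΦ t ρ σ hρ hσ (by rw [ht, hτdef]) hd he
  have htC : inn (Φ t) ∈ C := by rw [hte]; exact C.mul_mem hdC heC
  have hx1N : inn (Φ x1) ∉ C := by
    intro h1
    rw [hx1e] at h1
    have h4 := C.mul_mem (C.inv_mem heC) h1
    rw [← mul_assoc, inv_mul_cancel, one_mul] at h4
    exact haC h4
  have hg0X : g0 ∈ XG Φ a ha2 hcomm C := by
    rcases hcg with ⟨_, h⟩ | ⟨_, h⟩
    · left
      rw [← h]
      exact hcC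
    · right
      rw [← h]
      exact hcC
  have htX : t ∈ XG Φ a ha2 hcomm C := Or.inl htC
  rcases hLP3 F h2 (XG Φ a ha2 hcomm C) (NG Φ C)
    (by
      intro g hg
      exact Or.inl hg)
    (by
      intro g hg h hh hgN hhN
      have h1 : inn (Φ g) * a ∈ C := by
        rcases hg with h' | h'
        · exact absurd h' hgN
        · exact h'
      have h4 : inn (Φ h) * a ∈ C := by
        rcases hh with h' | h'
        · exact absurd h' hhN
        · exact h'
      show inn (Φ (g * h)) ∈ C
      rw [map_mul, inn_mul]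
      have := C.mul_mem h1 h4
      rwa [mul_assoc, ← mul_assoc a, hcomm, mul_assoc, ha2, mul_one] at this)
    (by
      intro g k hg
      show inn (Φ g) ∈ C
      rw [phi_scalar hΦ g k hg, inn_one]
      exact C.one_mem)
    x1 t g0 (-2) ρ τ
    (by
      right
      rw [hx1e, mul_assoc, ha2, mul_one]
      exact heC)
    hx1N htX hg0X hx1 ht (by rw [hτdef, hord])
    (by
      rw [hg0]
      simpa using hx0)
    (by
      rw [hg0]
      simpa using hρ) with ⟨g, hgX, hg⟩ | hall
  · left
    refine ⟨Φ g, ?_, hgX⟩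
    rw [hΦ g _ _ _ _ hg]
    ext i j
    fin_cases i <;> fin_cases j <;> simp [dg]
  · right
    obtain ⟨k, s, hk1, hk4, hks⟩ := hall (t * g0) (Subgroup.mul_mem _ htX hg0X)
    have hM : ((t * g0 : GL (Fin 2) F) : M2 F) = !![-(τ * x), 2 * τ; ρ, x] := by
      rw [Units.val_mul, ht, hg0]
      ext i j
      fin_cases i <;> fin_cases j <;> simp [Matrix.mul_apply, Fin.sum_univ_two]
      ring
    have hks' : (!![-(τ * x), 2 * τ; ρ, x] : M2 F) ^ k = !![s, 0; 0, s] := by
      rw [← hM, ← Units.val_pow_eq_pow_val, hks]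
    have hcase : k = 3 ∧ x ^ 2 = ρ ∨ k = 4 ∧ x ^ 2 = 4 * ρ := by
      interval_cases k
      · exfalso
        have h10 := congrFun (congrFun hks' 1) 0
        simp at h10
        exact hρ h10
      · exfalso
        have h10 := congrFun (congrFun hks' 1) 0
        simp [sq, Matrix.mul_apply, Fin.sum_univ_two] at h10
        have h11 : ρ * (x * (τ - 1)) = 0 := by linear_combination -h10
        rcases mul_eq_zero.1 h11 with h | h
        · exact hρ h
        · rcases mul_eq_zero.1 h with h | h
          · exact hx0 h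
          · exact hτ1 h
      · left
        refine ⟨rfl, ?_⟩
        have h10 := congrFun (congrFun hks' 1) 0
        simp [pow_succ, Matrix.mul_apply, Fin.sum_univ_two] at h10
        have h11 : (2 * τ * ρ) * (x ^ 2 - ρ) = 0 := by
          linear_combination (ρ * x ^ 2) * hτ - h10
        rcases mul_eq_zero.1 h11 with h | h
        · exact absurd h (mul_ne_zero (mul_ne_zero h2 hτ0) hρ)
        · exact sub_eq_zero.1 h
      · right
        refine ⟨rfl, ?_⟩
        have h10 := congrFun (congrFun hks' 1) 0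
        simp [pow_succ, Matrix.mul_apply, Fin.sum_univ_two] at h10
        have h11 : (ρ * x * (τ - 1) * τ) * (x ^ 2 - 4 * ρ) = 0 := by
          linear_combination h10 - (ρ * x ^ 3 * (1 - τ)) * hτ
        rcases mul_eq_zero.1 h11 with h | h
        · exact absurd h (mul_ne_zero (mul_ne_zero (mul_ne_zero hρ hx0) hτ1) hτ0)
        · exact sub_eq_zero.1 h
    rcases hcase with ⟨rfl, hxx⟩ | ⟨rfl, hxx⟩
    · rcases hcg with ⟨hs, hcg⟩ | ⟨hs, hcg⟩
      · exact Or.inl ⟨hs, hxx⟩
      · exfalso
        apply haC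
        have hy : inn (Φ (t * g0)) * a ∈ C := by
          rw [map_mul, inn_mul, mul_assoc, ← hcg]
          exact C.mul_mem htC hcC
        have hy3 : inn (Φ (t * g0)) * (inn (Φ (t * g0)) * inn (Φ (t * g0))) = 1 := by
          rw [← inn_mul, ← inn_mul, ← map_mul, ← map_mul]
          have e : t * g0 * (t * g0 * (t * g0)) = (t * g0) ^ 3 := by
            rw [pow_succ, pow_succ, pow_one]
            simp only [mul_assoc]
          rw [e, phi_scalar hΦ _ s hks, inn_one]
        have hc1 := hcomm (t * g0)
        generalize inn (Φ (t * g0)) = y at hy hy3 hc1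
        have h4 := C.mul_mem hy (C.mul_mem hy hy)
        have e : y * a * (y * a * (y * a)) = a := by
          calc y * a * (y * a * (y * a)) = y * (a * y) * (a * y) * a := by simp only [mul_assoc]
            _ = y * (y * a) * (y * a) * a := by rw [hc1]
            _ = y * y * (a * y) * (a * a) := by simp only [mul_assoc]
            _ = y * y * (y * a) * 1 := by rw [hc1, ha2]
            _ = (y * (y * y)) * a := by simp only [mul_assoc, mul_one]
            _ = a := by rw [hy3, one_mul]
        rwa [e] at h4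
    · rcases hcg with ⟨hs, hcg⟩ | ⟨hs, hcg⟩
      · exfalso
        have hgC : inn (Φ g0) ∈ C := by rw [← hcg]; exact hcC
        -- the product
        have hA : ((t * t * g0 : GL (Fin 2) F) : M2 F)
            = !![(τ + 1) * x, -2 * (τ + 1); ρ, x] := by
          rw [Units.val_mul, Units.val_mul, ht, hg0]
          ext i j
          fin_cases i <;> fin_cases j <;> simp [Matrix.mul_apply, Fin.sum_univ_two]
          · linear_combination (-x) * hτ
          · linear_combination 2 * hτ
        have hP : ((t * t * g0 * ((t * g0) * (t * t * g0)) : GL (Fin 2) F) : M2 F)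
            = !![0, (6 * ρ * (τ + 2)) * (-2); (6 * ρ * (τ + 2)) * ρ, 0] := by
          rw [Units.val_mul, Units.val_mul (t * g0), hA, hM]
          ext i j
          fin_cases i <;> fin_cases j <;> simp [Matrix.mul_apply, Fin.sum_univ_two]
          · linear_combination (x * (τ + 1)) * hxx - (x ^ 3 * (τ + 1)) * hτ
          · linear_combination (2 * (τ + 1) * (τ ^ 2 + 2 * τ - 1)) * hxx + (ρ * (8 * τ + 20)) * hτ
          · linear_combination (ρ * (2 - τ ^ 2)) * hxx - (4 * ρ ^ 2) * hτ
          · linear_combination x * hxx + (2 * ρ * x) * hτ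
        have h23 : τ + 2 ≠ 0 := by
          intro h
          apply h3
          have : τ = -2 := by linear_combination h
          rw [this] at hτ
          linear_combination hτ
        have hk : (6 * ρ * (τ + 2)) ≠ 0 := by
          refine mul_ne_zero (mul_ne_zero ?_ hρ) h23
          have : (6 : F) = 2 * 3 := by norm_num
          rw [this]
          exact mul_ne_zero h2 h3
        apply hx1N
        rw [hx1e, ← phi_x1 h2 hΦ _ _ ρ hk hρ hP ha he]
        simp only [map_mul, inn_mul]
        exact C.mul_mem (C.mul_mem (C.mul_mem htC htC) hgC)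
          (C.mul_mem (C.mul_mem htC hgC) (C.mul_mem (C.mul_mem htC htC) hgC))
      · exact Or.inr ⟨hs, hxx⟩

end Pool.Agent.H15.SCG2
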