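import Pool.Agent.H24.SCG2.Stmts1

/-!
Project SCG2, module SQO: a subfield of odd degree is closed under square roots.
-/

namespace Pool.Agent.H15.SCG2

open Pool.SCG Polynomial

theorem sqo_thm : Pool.SCG.SQOStmt := by
  intro F _ _ _ hq F0 x hx
  have hfd : Module.Finite F0 F := inferInstance
  have hcard : Nat.card F = Nat.card F0 ^ Module.finrank F0 F :=
    Module.natCard_eq_pow_finrank (K := F0) (V := F)
  have hodd : ¬ 2 ∣ Module.finrank F0 F := by
    rintro ⟨k, hk⟩
    apply hq
    refine ⟨Nat.card F0 ^ k, ?_⟩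
    rw [hcard, hk, two_mul, pow_add]
  have hint : IsIntegral F0 x := IsIntegral.of_finite F0 x
  have hdvd : (minpoly F0 x).natDegree ∣ Module.finrank F0 F := minpoly.degree_dvd hint
  have hpos : 0 < (minpoly F0 x).natDegree := minpoly.natDegree_pos hint
  have hle : (minpoly F0 x).natDegree ≤ 2 := by
    have hm : (X ^ 2 - C (⟨x ^ 2, hx⟩ : F0) : F0[X]).Monic := monic_X_pow_sub_C _ (by norm_num)
    have hr : Polynomial.aeval x (X ^ 2 - C (⟨x ^ 2, hx⟩ : F0) : F0[X]) = 0 := by
      have e : (algebraMap F0 F) ⟨x ^ 2, hx⟩ = x ^ 2 := rfl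
      simp [e]
    have := minpoly.min F0 x hm hr
    have h3 := Polynomial.natDegree_le_natDegree this
    rwa [Polynomial.natDegree_X_pow_sub_C] at h3
  have h1 : (minpoly F0 x).natDegree = 1 := by
    rcases Nat.lt_or_ge (minpoly F0 x).natDegree 2 with h | h
    · omega
    · have : (minpoly F0 x).natDegree = 2 := le_antisymm hle h
      rw [this] at hdvd
      exact absurd hdvd hodd
  rw [minpoly.natDegree_eq_one_iff] at h1
  obtain ⟨y, hy⟩ := h1
  rw [← hy]
  exact y.2

end Pool.Agent.H15.SCG2
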