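import Pool.Agent.H24.SCG2.Stmts1

/-!
Project SCG2, module TRF: the invariants lie in the subfield.
-/

namespace Pool.Agent.H15.SCG2

open Pool.SCG Matrix

theorem trf_core {F : Type} [Field F] (F0 : Subfield F) (u0 : F) (hu0 : u0 ≠ 0)
    (a b c d : F) (hdet : a * d - b * c ≠ 0)
    (H1 : ∀ u : F, u / u0 ∈ F0 → c * u + d ≠ 0 → ((a * u + b) / (c * u + d)) / u0 ∈ F0)
    (H2 : c ≠ 0 → (a / c) / u0 ∈ F0) : (a + d) ^ 2 / (a * d - b * c) ∈ F0 := by
  have hz : (0 : F) / u0 ∈ F0 := by simp
  have ho : u0 / u0 ∈ F0 := by rw [div_self hu0]; exact F0.one_mem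
  by_cases hc : c = 0
  · subst hc
    have hd : d ≠ 0 := by rintro rfl; simp at hdet
    have ha : a ≠ 0 := by rintro rfl; simp at hdet
    have h0 := H1 0 hz (by simpa using hd)
    have h1 := H1 u0 ho (by simpa using hd)
    have h2 := F0.sub_mem h1 h0
    have e : (a * u0 + b) / (0 * u0 + d) / u0 - (a * 0 + b) / (0 * 0 + d) / u0 = a / d := by
      simp only [zero_mul, zero_add, mul_zero]
      field_simp; ring
    rw [e] at h2
    have e2 : (a + d) ^ 2 / (a * d - b * 0) = (a / d + 1) ^ 2 / (a / d) := by
      have : a * d - b * 0 = a * d := by ring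
      rw [this]
      field_simp
    rw [e2]
    exact F0.div_mem (F0.pow_mem (F0.add_mem h2 F0.one_mem) 2) h2
  · have hal := H2 hc
    by_cases hd : d = 0
    · subst hd
      have hb : b ≠ 0 := by rintro rfl; simp at hdet
      have h1 := H1 u0 ho (by simpa using mul_ne_zero hc hu0)
      have h2 := F0.sub_mem h1 hal
      have e : (a * u0 + b) / (c * u0 + 0) / u0 - a / c / u0 = b / (c * u0 ^ 2) := by
        simp only [add_zero]
        field_simp; ring
      rw [e] at h2
      have e2 : (a + 0) ^ 2 / (a * 0 - b * c) = - ((a / c / u0) ^ 2 / (b / (c * u0 ^ 2))) := by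
        have : a * 0 - b * c = - (b * c) := by ring
        rw [this]
        field_simp
        ring
      rw [e2]
      exact F0.neg_mem (F0.div_mem (F0.pow_mem hal 2) h2)
    · have h0 := H1 0 hz (by simpa using hd)
      have hbm : b / d / u0 ∈ F0 := by simpa using h0
      have hδ : d / c / u0 ∈ F0 := by
        by_cases hs : c * u0 + d = 0
        · have : d / c / u0 = -1 := by
            field_simp
            linear_combination hs
          rw [this]
          exact F0.neg_mem F0.one_mem
        · have h1 := H1 u0 ho hs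
          have hcb : (a * u0 + b) / (c * u0 + d) / u0 ≠ b / d / u0 := by
            intro heq
            apply hdet
            have h3 : (a * u0 + b) / (c * u0 + d) = b / d := by
              have := congrArg (· * u0) heq
              simpa [div_mul_cancel₀ _ hu0] using this
            rw [div_eq_div_iff hs hd] at h3
            have h4 : u0 * (a * d - b * c) = 0 := by linear_combination h3
            rcases mul_eq_zero.1 h4 with h | h
            · exact absurd h hu0
            · exact h
          have hne : (a * u0 + b) / (c * u0 + d) / u0 - b / d / u0 ≠ 0 := sub_ne_zero.2 hcb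
          have h5 := F0.div_mem (F0.sub_mem hal h1) (F0.sub_mem h1 hbm)
          have e : (a / c / u0 - (a * u0 + b) / (c * u0 + d) / u0) /
              ((a * u0 + b) / (c * u0 + d) / u0 - b / d / u0) = d / c / u0 := by
            rw [div_eq_iff hne]
            field_simp
            ring
          rw [← e]; exact h5
      have hd0 : d / c / u0 ≠ 0 := div_ne_zero (div_ne_zero hd hc) hu0
      have e2 : (a + d) ^ 2 / (a * d - b * c) =
          (a / c / u0 + d / c / u0) ^ 2 /
            ((a / c / u0) * (d / c / u0) - (b / d / u0) * (d / c / u0)) := by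
        have e3 : (a / c / u0) * (d / c / u0) - (b / d / u0) * (d / c / u0)
            = (a * d - b * c) / (c ^ 2 * u0 ^ 2) := by
          field_simp
        have e4 : (a / c / u0 + d / c / u0) = (a + d) / (c * u0) := by field_simp
        rw [e3, e4]
        field_simp
      rw [e2]
      exact F0.div_mem (F0.pow_mem (F0.add_mem hal hδ) 2)
        (F0.sub_mem (F0.mul_mem hal hδ) (F0.mul_mem hbm hδ))

theorem trf_thm : Pool.SCG.TRFStmt := by
  intro F _ F0 u0 hu0 X H1 H2 g hg
  have hdet : (g : M2 F) 0 0 * (g : M2 F) 1 1 - (g : M2 F) 0 1 * (g : M2 F) 1 0 ≠ 0 := by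
    have h := (Matrix.GeneralLinearGroup.det g).ne_zero
    have h' : (g : M2 F).det ≠ 0 := h
    rwa [Matrix.det_fin_two] at h'
  rw [Matrix.trace_fin_two, Matrix.det_fin_two]
  exact trf_core F0 u0 hu0 _ _ _ _ hdet (H1 g hg) (H2 g hg)

end Pool.Agent.H15.SCG2
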