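import Pool.Agent.H24.SCG2.Stmts4
import Pool.Agent.H24.SCG2.Base3

/-!
Project SCG2, module UUG: two conics generate.
-/

namespace Pool.Agent.H15.SCG2

open Matrix Pool.SCG

theorem uug_thm (hTRV : TRVStmt) : Pool.SCG.UUGStmt := by
  intro F _ h2 H c g g' hg hg' hgg hcH hc hU hU'
  obtain ⟨δ, hδ⟩ : ∃ δ : F, δ = g'⁻¹ - g⁻¹ := ⟨_, rfl⟩
  have hδ0 : δ ≠ 0 := by
    rw [hδ]
    intro h
    apply hgg
    have := sub_eq_zero.1 h
    exact (inv_injective this).symm
  -- the elements V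
  have hV : ∀ x : F, InA H (!![1, 0, x ^ 2 * δ * 2⁻¹; 0, 1, x * δ; 0, 0, 1] : M3 F) := by
    intro x
    have h1 := (hU x).mul (hU' (-x))
    have e : Ug g x * Ug g' (-x) = !![1, 0, x ^ 2 * δ * 2⁻¹; 0, 1, x * δ; 0, 0, 1] := by
      rw [hδ]
      ext i j
      fin_cases i <;> fin_cases j <;> simp [Ug, Matrix.mul_apply, Fin.sum_univ_three] <;>
        field_simp <;> ring
    rwa [e] at h1
  have hV' : ∀ x : F, InA H (!![1, 0, -(x ^ 2 * δ * 2⁻¹); 0, 1, -(x * δ); 0, 0, 1] : M3 F) := by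
    intro x
    refine (hV x).inv ?_
    ext i j
    fin_cases i <;> fin_cases j <;> simp [Matrix.mul_apply, Fin.sum_univ_three]
  have hE13 : ∀ t : F, InA H (!![1, 0, t; 0, 1, 0; 0, 0, 1] : M3 F) := by
    intro t
    have h1 := ((hV (-(t / δ))).mul (hV 1)).mul (hV' (-(t / δ) + 1))
    have e : (!![1, 0, (-(t / δ)) ^ 2 * δ * 2⁻¹; 0, 1, (-(t / δ)) * δ; 0, 0, 1] *
        !![1, 0, 1 ^ 2 * δ * 2⁻¹; 0, 1, 1 * δ; 0, 0, 1] *
        !![1, 0, -((-(t / δ) + 1) ^ 2 * δ * 2⁻¹); 0, 1, -((-(t / δ) + 1) * δ); 0, 0, 1] : M3 F)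
        = !![1, 0, t; 0, 1, 0; 0, 0, 1] := by
      ext i j
      fin_cases i <;> fin_cases j <;> simp [Matrix.mul_apply, Fin.sum_univ_three] <;>
        field_simp <;> ring
    rwa [e] at h1
  have hE23 : ∀ t : F, InA H (!![1, 0, 0; 0, 1, t; 0, 0, 1] : M3 F) := by
    intro t
    have h1 := (hV (t / δ)).mul (hE13 (-((t / δ) ^ 2 * δ * 2⁻¹)))
    have e : (!![1, 0, (t / δ) ^ 2 * δ * 2⁻¹; 0, 1, (t / δ) * δ; 0, 0, 1] *
        !![1, 0, -((t / δ) ^ 2 * δ * 2⁻¹); 0, 1, 0; 0, 0, 1] : M3 F)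
        = !![1, 0, 0; 0, 1, t; 0, 0, 1] := by
      ext i j
      fin_cases i <;> fin_cases j <;> simp [Matrix.mul_apply, Fin.sum_univ_three]
      field_simp
    rwa [e] at h1
  have hE12 : ∀ t : F, InA H (!![1, t, 0; 0, 1, 0; 0, 0, 1] : M3 F) := by
    intro t
    have h1 := ((hU t).mul (hE23 (t * g⁻¹))).mul (hE13 (t ^ 2 * (2 * g)⁻¹ - t * (t * g⁻¹)))
    have e : (Ug g t * !![1, 0, 0; 0, 1, t * g⁻¹; 0, 0, 1] *
        !![1, 0, t ^ 2 * (2 * g)⁻¹ - t * (t * g⁻¹); 0, 1, 0; 0, 0, 1] : M3 F)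
        = !![1, t, 0; 0, 1, 0; 0, 0, 1] := by
      ext i j
      fin_cases i <;> fin_cases j <;> simp [Ug, Matrix.mul_apply, Fin.sum_univ_three]
      ring
    rwa [e] at h1
  -- conjugation with `c`
  have hAn : An (1 : F) * An 1 = (1 : F) • (1 : M3 F) := by
    ext i j
    fin_cases i <;> fin_cases j <;> simp [An, Matrix.mul_apply, Fin.sum_univ_three]
  have hconj : ∀ A : M3 F, InA H A → InA H (An 1 * A * An 1) := by
    intro A hA
    have := hA.conj hcH hc hAn one_ne_zero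
    simpa using this
  have hE31 : ∀ t : F, InA H (!![1, 0, 0; 0, 1, 0; t, 0, 1] : M3 F) := by
    intro t
    have h1 := hconj _ (hE13 t)
    have e : An (1 : F) * !![1, 0, t; 0, 1, 0; 0, 0, 1] * An 1 = !![1, 0, 0; 0, 1, 0; t, 0, 1] := by
      ext i j
      fin_cases i <;> fin_cases j <;> simp [An, Matrix.mul_apply, Fin.sum_univ_three]
    rwa [e] at h1
  have hE21 : ∀ t : F, InA H (!![1, 0, 0; t, 1, 0; 0, 0, 1] : M3 F) := by
    intro t
    have h1 := hconj _ (hE23 (-t))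
    have e : An (1 : F) * !![1, 0, 0; 0, 1, -t; 0, 0, 1] * An 1
        = !![1, 0, 0; t, 1, 0; 0, 0, 1] := by
      ext i j
      fin_cases i <;> fin_cases j <;> simp [An, Matrix.mul_apply, Fin.sum_univ_three]
    rwa [e] at h1
  have hE32 : ∀ t : F, InA H (!![1, 0, 0; 0, 1, 0; 0, t, 1] : M3 F) := by
    intro t
    have h1 := hconj _ (hE12 (-t))
    have e : An (1 : F) * !![1, -t, 0; 0, 1, 0; 0, 0, 1] * An 1
        = !![1, 0, 0; 0, 1, 0; 0, t, 1] := by
      ext i j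
      fin_cases i <;> fin_cases j <;> simp [An, Matrix.mul_apply, Fin.sum_univ_three]
    rwa [e] at h1
  apply hTRV F H 1
  intro i j hij t
  rw [Units.val_one, inv_one, Units.val_one, one_mul, mul_one]
  have key : ∀ (i j : Fin 3) (M : M3 F), InA H M → M = transvection i j t →
      InA H (transvection i j t) := fun i j M h1 h4 => h4 ▸ h1
  fin_cases i <;> fin_cases j
  · exact absurd rfl hij
  · refine key _ _ _ (hE12 t) ?_
    ext i j
    fin_cases i <;> fin_cases j <;> simp [transvection]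
  · refine key _ _ _ (hE13 t) ?_
    ext i j
    fin_cases i <;> fin_cases j <;> simp [transvection]
  · refine key _ _ _ (hE21 t) ?_
    ext i j
    fin_cases i <;> fin_cases j <;> simp [transvection]
  · exact absurd rfl hij
  · refine key _ _ _ (hE23 t) ?_
    ext i j
    fin_cases i <;> fin_cases j <;> simp [transvection]
  · refine key _ _ _ (hE31 t) ?_
    ext i j
    fin_cases i <;> fin_cases j <;> simp [transvection]
  · refine key _ _ _ (hE32 t) ?_
    ext i j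
    fin_cases i <;> fin_cases j <;> simp [transvection]
  · exact absurd rfl hij

end Pool.Agent.H15.SCG2
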